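import Pool.Agent.H80.JE.Targets

/-! Row EV3 of the board `je_modules`: the limit of the fraction of the large columns. -/

namespace Pool.Agent.H38.JE

open Finset Filter Topology
open Pool.Agent.H80.JD
open Pool.Agent.H80.JE

lemma bigs_frac (τ : ℝ) (m : ℕ) :
    ((bigs τ m).card : ℝ) / 2 ^ m = 1 - pr m (τ * Real.sqrt m) := by
  classical
  have h1 : Nat.card {h : Fin m → Bool // |((ip h (zero m) : ℤ) : ℝ)| ≤ τ * Real.sqrt m} =
      ((bigs τ m)ᶜ).card := by
    rw [Nat.card_eq_fintype_card, Fintype.card_subtype]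
    congr 1
    ext v
    simp only [bigs, mem_filter, mem_univ, true_and, mem_compl, Big, not_lt, csum, ip_zero]
  have h2 : (((bigs τ m)ᶜ).card : ℝ) = 2 ^ m - ((bigs τ m).card : ℝ) := by
    rw [Finset.card_compl, Nat.cast_sub (Finset.card_le_univ _)]
    simp
  unfold pr
  rw [h1, h2]
  have h3 : (0 : ℝ) < 2 ^ m := by positivity
  field_simp
  ring

theorem ev3 (hCLT : T_CLT) : T_EV3 := by
  intro τ hτ
  have h0 : Tendsto (fun n : ℕ => ((n : ℕ) : ℝ) / n) atTop (𝓝 1) := by
    refine Tendsto.congr' ?_ tendsto_const_nhds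
    filter_upwards [eventually_gt_atTop 0] with n hn
    have hn' : (n : ℝ) ≠ 0 := by exact_mod_cast hn.ne'
    rw [div_self hn']
  have h := hCLT (fun n => n) 1 τ one_pos hτ h0
  rw [Real.sqrt_one, div_one] at h
  simp only [bigs_frac]
  exact tendsto_const_nhds.sub h

end Pool.Agent.H38.JE
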